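import Pool.Agent.Helper97.QC.Base

set_option autoImplicit false

open MeasureTheory ProbabilityTheory Filter Finset Topology

namespace Pool.Agent.Helper17.QC

open Pool.Agent.Helper97.CP Pool.Agent.Helper97.QC

/-! ## Part K1 : kernel estimates -/

theorem Q_eq_A (f : Z2 → ℝ) (z : Z2) : Q f z = A 2 f z := by
  have h1 : ∀ (g : Z2 → ℝ) (w : Z2), A 1 g w = 1 / 4 * ∑ e : E4, g (w + stp e) := by
    intro g w
    rw [A_succ]
    simp only [A_zero]
  have hsw : ∀ g : E4 → ℝ, ∑ e' : E4, g (e'.1, !e'.2) = ∑ e' : E4, g e' := by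
    intro g
    exact Fintype.sum_equiv (Equiv.prodCongr (Equiv.refl (Fin 2)) Equiv.boolNot) _ _ (fun e => rfl)
  have hst : ∀ e : E4, stp (e.1, !e.2) = - stp e := by
    rintro ⟨i, b⟩
    cases b <;> simp [stp, ← Pi.single_neg]
  rw [A_succ]
  simp only [h1]
  unfold Q
  rw [← Finset.mul_sum, ← mul_assoc]
  congr 1
  · norm_num
  · apply Finset.sum_congr rfl
    intro e _
    rw [← hsw (fun e' => f (z + stp e + stp e'))]
    apply Finset.sum_congr rfl
    intro e' _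
    rw [hst]
    congr 1
    abel

theorem Qn_eq_A (n : ℕ) (f : Z2 → ℝ) (z : Z2) : Qn n f z = A (2 * n) f z := by
  induction n generalizing z with
  | zero => rw [mul_zero, A_zero]; rfl
  | succ n ih =>
    show Q (Qn n f) z = _
    rw [Q_eq_A, show Qn n f = A (2 * n) f from funext ih, ← A_comp]
    congr 1
    ring

theorem B1_neg (k : ℕ) (a : ℤ) : B1 k (-a) = B1 k a := by
  induction k generalizing a with
  | zero =>
    unfold B1
    simp
  | succ k ih =>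
    show (B1 k (-a - 1) + B1 k (-a + 1)) / 2 = (B1 k (a - 1) + B1 k (a + 1)) / 2
    rw [show -a - 1 = -(a + 1) by ring, show -a + 1 = -(a - 1) by ring, ih, ih]
    ring

theorem q_eq (n : ℕ) (z : Z2) : q n z = B1 (2 * n) (z 0 + z 1) * B1 (2 * n) (z 0 - z 1) := by
  unfold q
  rw [Qn_eq_A]
  have h := A_ind (2 * n) 0 z
  have e : (i0 : Z2 → ℝ) = fun z => if z = 0 then 1 else 0 := rfl
  rw [e, h]
  simp only [Pi.zero_apply, add_zero, zero_sub, sub_zero]
  rw [B1_neg, B1_neg]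

/-- `C(2n, n+j) / 4^n` -/
noncomputable def bb (n j : ℕ) : ℝ := (Nat.choose (2 * n) (n + j) : ℝ) / 4 ^ n

theorem bb_nonneg (n j : ℕ) : 0 ≤ bb n j := by unfold bb; positivity

theorem B1_two_mul (n : ℕ) (j : ℤ) : B1 (2 * n) (2 * j) = bb n j.natAbs := by
  have key : ∀ j : ℕ, B1 (2 * n) (2 * (j : ℤ)) = bb n j := by
    intro j
    have h := (B1_even (2 * n)).1 ((n : ℤ) + j)
    have e : 2 * ((n : ℤ) + j) - ((2 * n : ℕ) : ℤ) = 2 * (j : ℤ) := by push_cast; ring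
    rw [e] at h
    rw [h]
    unfold ch bb
    rw [if_pos (by positivity)]
    have e2 : ((n : ℤ) + j).toNat = n + j := by omega
    rw [e2, pow_mul]
    norm_num
  rcases Int.natAbs_eq j with h | h
  · rw [h, key]; congr 1
  · have e : 2 * j = -(2 * (j.natAbs : ℤ)) := by rw [h]; simp
    rw [e, B1_neg, key]

theorem B1_odd (n : ℕ) (j : ℤ) : B1 (2 * n) (2 * j + 1) = 0 := by
  have h := (B1_even (2 * n)).2 ((n : ℤ) + j)
  have e : 2 * ((n : ℤ) + j) - ((2 * n : ℕ) : ℤ) + 1 = 2 * j + 1 := by push_cast; ring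
  rwa [e] at h

theorem bb_succ (n j : ℕ) (hj : j ≤ n) :
    bb n (j + 1) * ((n : ℝ) + j + 1) = bb n j * ((n : ℝ) - j) := by
  have h := Nat.choose_succ_right_eq (2 * n) (n + j)
  have e : 2 * n - (n + j) = n - j := by omega
  rw [e] at h
  have h' : (Nat.choose (2 * n) (n + j + 1) : ℝ) * ((n : ℝ) + j + 1) =
      (Nat.choose (2 * n) (n + j) : ℝ) * ((n : ℝ) - j) := by
    rw [← Nat.cast_sub hj]
    exact_mod_cast h
  unfold bb
  rw [← add_assoc, div_mul_eq_mul_div, div_mul_eq_mul_div, h']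

theorem bb_big (n j : ℕ) (hj : n < j) : bb n j = 0 := by
  unfold bb
  rw [Nat.choose_eq_zero_of_lt (by omega)]
  simp

theorem bb_step {n : ℕ} (hn : 1 ≤ n) (j : ℕ) :
    bb n (j + 1) ≤ bb n j ∧ bb n (j + 1) * (2 * n + ((j : ℝ) + 1) ^ 2) ≤
      bb n j * (2 * n + (j : ℝ) ^ 2) ∧ bb n j - bb n j * ((2 * (j : ℝ) + 1) / n) ≤ bb n (j + 1) := by
  have hn' : (1 : ℝ) ≤ n := by exact_mod_cast hn
  have hj0 : (0 : ℝ) ≤ j := Nat.cast_nonneg j
  have hb := bb_nonneg n j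
  rcases le_or_gt j n with hj | hj
  · have hj' : (j : ℝ) ≤ n := by exact_mod_cast hj
    have h := bb_succ n j hj
    have hpos : (0 : ℝ) < (n : ℝ) + j + 1 := by positivity
    have h' : bb n (j + 1) = bb n j * ((n : ℝ) - j) / ((n : ℝ) + j + 1) := by
      rw [eq_div_iff hpos.ne']; exact h
    refine ⟨?_, ?_, ?_⟩
    · rw [h', div_le_iff₀ hpos]
      exact mul_le_mul_of_nonneg_left (by linarith) hb
    · rw [h', div_mul_eq_mul_div, div_le_iff₀ hpos, mul_assoc, mul_assoc]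
      refine mul_le_mul_of_nonneg_left ?_ hb
      nlinarith [mul_nonneg hj0 hj0, mul_nonneg (mul_nonneg hj0 hj0) hj0]
    · rw [h', le_div_iff₀ hpos]
      have e : (bb n j - bb n j * ((2 * (j : ℝ) + 1) / n)) * ((n : ℝ) + j + 1) =
          bb n j * ((1 - (2 * (j : ℝ) + 1) / n) * ((n : ℝ) + j + 1)) := by ring
      rw [e]
      refine mul_le_mul_of_nonneg_left ?_ hb
      have h1 : (2 * (j : ℝ) + 1) ≤ (2 * (j : ℝ) + 1) / n * ((n : ℝ) + j + 1) := by
        rw [div_mul_eq_mul_div, le_div_iff₀ (by linarith)]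
        nlinarith
      nlinarith
  · rw [bb_big n j hj, bb_big n (j + 1) (by omega)]
    simp

theorem bb_bounds {n : ℕ} (hn : 1 ≤ n) (j : ℕ) :
    bb n j ≤ bb n 0 ∧ bb n j * (2 * n + (j : ℝ) ^ 2) ≤ bb n 0 * (2 * n) ∧
      bb n 0 * (1 - (j : ℝ) ^ 2 / n) ≤ bb n j := by
  have hn' : (1 : ℝ) ≤ n := by exact_mod_cast hn
  induction j with
  | zero => simp
  | succ j ih =>
    obtain ⟨i1, i2, i3⟩ := ih
    obtain ⟨s1, s2, s3⟩ := bb_step hn j
    refine ⟨s1.trans i1, ?_, ?_⟩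
    · push_cast; exact s2.trans i2
    · push_cast
      have hj0 : (0 : ℝ) ≤ j := Nat.cast_nonneg j
      have h1 : bb n j * ((2 * (j : ℝ) + 1) / n) ≤ bb n 0 * ((2 * (j : ℝ) + 1) / n) := by
        gcongr
      have e : bb n 0 * (1 - ((j : ℝ) + 1) ^ 2 / n) =
          bb n 0 * (1 - (j : ℝ) ^ 2 / n) - bb n 0 * ((2 * (j : ℝ) + 1) / n) := by
        field_simp; ring
      rw [e]
      linarith

theorem bb_zero_le (n : ℕ) : bb n 0 ^ 2 ≤ 1 / (2 * (n : ℝ) + 1) := by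
  have h := B1_even_le n 0
  have e : B1 (2 * n) 0 = bb n 0 := by
    have := B1_two_mul n 0
    simpa using this
  rw [e] at h
  have h0 := bb_nonneg n 0
  calc bb n 0 ^ 2 ≤ (1 / √(2 * (n : ℝ) + 1)) ^ 2 := by gcongr
    _ = 1 / (2 * (n : ℝ) + 1) := by
        rw [div_pow, one_pow, Real.sq_sqrt (by positivity)]

theorem central_low {n : ℕ} (hn : 1 ≤ n) : (16 : ℝ) ^ n ≤ (Nat.centralBinom n : ℝ) ^ 2 * (4 * n) := by
  induction n, hn using Nat.le_induction with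
  | base => norm_num [Nat.centralBinom, Nat.choose]
  | succ m hm ih =>
    have h := Nat.succ_mul_centralBinom_succ m
    have h' : ((m : ℝ) + 1) * (Nat.centralBinom (m + 1) : ℝ) =
        2 * (2 * m + 1) * (Nat.centralBinom m : ℝ) := by exact_mod_cast h
    have hm0 : (1 : ℝ) ≤ m := by exact_mod_cast hm
    have hm1 : (0 : ℝ) < (m : ℝ) + 1 := by positivity
    have h2 : (Nat.centralBinom (m + 1) : ℝ) = 2 * (2 * m + 1) * (Nat.centralBinom m : ℝ) / (m + 1) := by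
      rw [eq_div_iff hm1.ne']; linarith
    rw [h2, div_pow, div_mul_eq_mul_div, le_div_iff₀ (by positivity)]
    push_cast
    set c := (Nat.centralBinom m : ℝ)
    set x := (m : ℝ)
    have e1 : (2 * (2 * x + 1) * c) ^ 2 * (4 * (x + 1)) =
        (c ^ 2) * (16 * (2 * x + 1) ^ 2 * (x + 1)) := by ring
    rw [e1, pow_succ]
    have h3 : 16 ^ m * (x + 1) * x ≤ (c ^ 2 * (4 * x)) * ((x + 1) * x) := by
      have := mul_le_mul_of_nonneg_right ih (show 0 ≤ (x + 1) * x by positivity)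
      linarith
    have hc : 0 ≤ c ^ 2 := sq_nonneg c
    have h4 : 16 ^ m * (x + 1) ≤ (c ^ 2 * 4) * ((x + 1) * x) := by
      have hx : 0 < x := by linarith
      have := le_of_mul_le_mul_right (a := x) (b := 16 ^ m * (x + 1))
        (c := (c ^ 2 * 4) * ((x + 1) * x)) (by linarith [h3]) hx
      exact this
    calc 16 ^ m * 16 * (x + 1) ^ 2 = (16 ^ m * (x + 1)) * (16 * (x + 1)) := by ring
      _ ≤ ((c ^ 2 * 4) * ((x + 1) * x)) * (16 * (x + 1)) := by gcongr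
      _ = c ^ 2 * (16 * (4 * x * (x + 1)) * (x + 1)) := by ring
      _ ≤ c ^ 2 * (16 * (2 * x + 1) ^ 2 * (x + 1)) := by
          gcongr
          nlinarith

theorem bb_zero_ge {n : ℕ} (hn : 1 ≤ n) : 1 / (4 * (n : ℝ)) ≤ bb n 0 ^ 2 := by
  have hn' : (1 : ℝ) ≤ n := by exact_mod_cast hn
  have h := central_low hn
  have e : bb n 0 = (Nat.centralBinom n : ℝ) / 4 ^ n := by
    unfold bb; rw [add_zero, Nat.centralBinom_eq_two_mul_choose]
  rw [e, div_pow, div_le_div_iff₀ (by positivity) (by positivity), one_mul, ← pow_mul,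
    mul_comm n 2, pow_mul]
  norm_num
  exact h

theorem q_zero_eq (n : ℕ) : q n 0 = bb n 0 ^ 2 := by
  rw [q_eq]
  have e : B1 (2 * n) 0 = bb n 0 := by
    have := B1_two_mul n 0
    simpa using this
  simp only [Pi.zero_apply, add_zero, sub_zero, e]
  ring

theorem q_zero_bounds {n : ℕ} (hn : 1 ≤ n) :
    1 / (4 * (n : ℝ)) ≤ q n 0 ∧ q n 0 ≤ 1 / (2 * (n : ℝ) + 1) := by
  rw [q_zero_eq]
  exact ⟨bb_zero_ge hn, bb_zero_le n⟩

/-- the even case -/
theorem q_even (n : ℕ) {z : Z2} (hz : Even (z 0 + z 1)) :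
    ∃ j k : ℕ, q n z = bb n j * bb n k ∧ nsq z = 2 * ((j : ℝ) ^ 2 + (k : ℝ) ^ 2) := by
  obtain ⟨a, ha⟩ := hz
  have hb : z 0 - z 1 = 2 * (a - z 1) := by omega
  have ha' : z 0 + z 1 = 2 * a := by omega
  refine ⟨a.natAbs, (a - z 1).natAbs, ?_, ?_⟩
  · rw [q_eq, ha', hb, B1_two_mul, B1_two_mul]
  · have e0 : (z 0 : ℝ) = 2 * a - z 1 := by
      have : z 0 = 2 * a - z 1 := by omega
      exact_mod_cast this
    rw [nsq_eq, Nat.cast_natAbs, Nat.cast_natAbs]
    push_cast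
    rw [sq_abs, sq_abs, e0]
    ring

theorem q_odd (n : ℕ) {z : Z2} (hz : ¬ Even (z 0 + z 1)) : q n z = 0 := by
  rw [Int.not_even_iff_odd] at hz
  obtain ⟨a, ha⟩ := hz
  rw [q_eq, ha, B1_odd, zero_mul]

theorem q_nonneg (n : ℕ) (z : Z2) : 0 ≤ q n z := by
  rw [q_eq]; exact mul_nonneg (B1_nonneg _ _) (B1_nonneg _ _)

theorem q_le_zero {n : ℕ} (hn : 1 ≤ n) (z : Z2) : q n z ≤ q n 0 := by
  by_cases hz : Even (z 0 + z 1)
  · obtain ⟨j, k, h1, h2⟩ := q_even n hz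
    rw [h1, q_zero_eq, sq]
    exact mul_le_mul (bb_bounds hn j).1 (bb_bounds hn k).1 (bb_nonneg _ _) (bb_nonneg _ _)
  · rw [q_odd n hz]; exact q_nonneg _ _

theorem q_le {n : ℕ} (hn : 1 ≤ n) (z : Z2) : q n z ≤ 16 / ((n : ℝ) + nsq z) := by
  have hn' : (1 : ℝ) ≤ n := by exact_mod_cast hn
  have hs := nsq_nonneg z
  by_cases hz : Even (z 0 + z 1)
  · obtain ⟨j, k, h1, h2⟩ := q_even n hz
    have main : ∀ j k : ℕ, (k : ℝ) ^ 2 ≤ (j : ℝ) ^ 2 → nsq z = 2 * ((j : ℝ) ^ 2 + (k : ℝ) ^ 2) →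
        bb n j * bb n k ≤ 16 / ((n : ℝ) + nsq z) := by
      intro j k hjk h2
      obtain ⟨i1, i2, i3⟩ := bb_bounds hn j
      obtain ⟨l1, l2, l3⟩ := bb_bounds hn k
      have hb0 := bb_zero_le n
      have h0 := bb_nonneg n 0
      have hj := bb_nonneg n j
      rw [le_div_iff₀ (by positivity)]
      have h3 : (n : ℝ) + nsq z ≤ 4 * (2 * n + (j : ℝ) ^ 2) := by
        rw [h2]; nlinarith
      calc bb n j * bb n k * ((n : ℝ) + nsq z) ≤ bb n j * bb n 0 * (4 * (2 * n + (j : ℝ) ^ 2)) := by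
            gcongr
        _ = 4 * bb n 0 * (bb n j * (2 * n + (j : ℝ) ^ 2)) := by ring
        _ ≤ 4 * bb n 0 * (bb n 0 * (2 * n)) := by gcongr
        _ = 8 * n * bb n 0 ^ 2 := by ring
        _ ≤ 8 * n * (1 / (2 * (n : ℝ) + 1)) := by gcongr
        _ ≤ 16 := by
            rw [mul_one_div, div_le_iff₀ (by positivity)]
            linarith
    rw [h1]
    rcases le_total ((k : ℝ) ^ 2) ((j : ℝ) ^ 2) with h | h
    · exact main j k h h2
    · rw [mul_comm (bb n j)]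
      exact main k j h (by rw [h2]; ring)
  · rw [q_odd n hz]
    positivity

theorem q_zero_sub_le {n : ℕ} (hn : 1 ≤ n) {z : Z2} (hz : Even (z 0 + z 1)) :
    q n 0 - q n z ≤ nsq z / (2 * n) * q n 0 := by
  have hn' : (1 : ℝ) ≤ n := by exact_mod_cast hn
  obtain ⟨j, k, h1, h2⟩ := q_even n hz
  obtain ⟨i1, i2, i3⟩ := bb_bounds hn j
  obtain ⟨l1, l2, l3⟩ := bb_bounds hn k
  have h0 := bb_nonneg n 0
  have hj := bb_nonneg n j
  have hk := bb_nonneg n k
  have e : nsq z / (2 * n) = (j : ℝ) ^ 2 / n + (k : ℝ) ^ 2 / n := by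
    rw [h2]; field_simp
  rw [h1, q_zero_eq, e]
  set a : ℝ := (j : ℝ) ^ 2 / n with ha
  set b : ℝ := (k : ℝ) ^ 2 / n with hb
  have ha0 : 0 ≤ a := by positivity
  have hb0 : 0 ≤ b := by positivity
  rcases le_or_gt 1 (a + b) with h | h
  · have : 0 ≤ bb n j * bb n k := mul_nonneg hj hk
    nlinarith [sq_nonneg (bb n 0)]
  · have ha1 : 0 ≤ 1 - a := by linarith
    have hb1 : 0 ≤ 1 - b := by linarith
    have h3 : bb n 0 * (1 - a) * (bb n 0 * (1 - b)) ≤ bb n j * bb n k := by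
      apply mul_le_mul i3 l3 (by positivity) hj
    nlinarith [mul_nonneg (mul_nonneg ha0 hb0) (sq_nonneg (bb n 0))]

end Pool.Agent.Helper17.QC
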