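import Pool.Agent.Helper17.QC.K1

set_option autoImplicit false

open MeasureTheory ProbabilityTheory Filter Finset Topology

namespace Pool.Agent.Helper17.QC

open Pool.Agent.Helper97.CP Pool.Agent.Helper97.QC

/-! ## Part K2 : sums of kernels -/

theorem inv_le_log {x : ℝ} (hx : 0 < x) : 1 / (x + 1) ≤ Real.log ((x + 1) / x) := by
  have h := Real.one_sub_inv_le_log_of_pos (show 0 < (x + 1) / x by positivity)
  have e : 1 - ((x + 1) / x)⁻¹ = 1 / (x + 1) := by field_simp; ring
  linarith

theorem sum_shift {s : ℝ} (hs : 0 ≤ s) {t : ℕ} (ht : 1 ≤ t) :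
    ∑ n ∈ Icc 1 t, 1 / ((n : ℝ) + s) ≤ 1 + Real.log ((t + s) / (1 + s)) := by
  induction t, ht using Nat.le_induction with
  | base =>
    simp only [Icc_self, sum_singleton, Nat.cast_one]
    rw [div_self (by positivity), Real.log_one, add_zero, div_le_one (by positivity)]
    linarith
  | succ m hm ih =>
    have hm' : (1 : ℝ) ≤ m := by exact_mod_cast hm
    rw [Finset.sum_Icc_succ_top (by omega)]
    have h1 := inv_le_log (show 0 < (m : ℝ) + s by positivity)
    have h2 : Real.log ((((m + 1 : ℕ) : ℝ) + s) / (1 + s)) =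
        Real.log ((m + s) / (1 + s)) + Real.log ((m + s + 1) / (m + s)) := by
      rw [← Real.log_mul (by positivity) (by positivity)]
      congr 1
      push_cast
      field_simp
      ring
    rw [h2]
    push_cast
    have e : (m : ℝ) + 1 + s = m + s + 1 := by ring
    rw [e]
    linarith

theorem Qs_nonneg (t : ℕ) (z : Z2) : 0 ≤ Qs t z := Finset.sum_nonneg fun n _ => q_nonneg n z

theorem Qs_le : ∃ C : ℝ, 0 < C ∧ ∀ (t : ℕ) (z : Z2), 1 ≤ t →
    Qs t z ≤ C * (max 0 (Real.log (t / (1 + nsq z))) + min 1 (t / (1 + nsq z))) := by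
  refine ⟨32, by norm_num, fun t z ht => ?_⟩
  have hs := nsq_nonneg z
  set s := nsq z with hsdef
  have ht' : (1 : ℝ) ≤ t := by exact_mod_cast ht
  rcases le_or_gt (t : ℝ) (1 + s) with h | h
  · have h1 : Qs t z ≤ 16 * (t / (1 + s)) := by
      unfold Qs
      calc ∑ n ∈ Icc 1 t, q n z ≤ ∑ n ∈ Icc 1 t, 16 / (1 + s) := by
            refine Finset.sum_le_sum fun n hn => ?_
            rw [Finset.mem_Icc] at hn
            have hn' : (1 : ℝ) ≤ n := by exact_mod_cast hn.1
            exact (q_le hn.1 z).trans (by gcongr)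
        _ = 16 * (t / (1 + s)) := by
            rw [Finset.sum_const, Nat.card_Icc, nsmul_eq_mul, Nat.add_sub_cancel]
            ring
    have h2 : t / (1 + s) ≤ 1 := by rw [div_le_one (by positivity)]; exact h
    rw [min_eq_right h2]
    have h3 : 0 ≤ max 0 (Real.log (t / (1 + s))) := le_max_left _ _
    have h4 : 0 ≤ t / (1 + s) := by positivity
    linarith
  · have h1 : Qs t z ≤ 16 * (1 + Real.log ((t + s) / (1 + s))) := by
      unfold Qs
      calc ∑ n ∈ Icc 1 t, q n z ≤ ∑ n ∈ Icc 1 t, 16 * (1 / ((n : ℝ) + s)) := by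
            refine Finset.sum_le_sum fun n hn => ?_
            rw [Finset.mem_Icc] at hn
            refine (q_le hn.1 z).trans (le_of_eq ?_)
            rw [mul_one_div]
        _ = 16 * ∑ n ∈ Icc 1 t, 1 / ((n : ℝ) + s) := by rw [Finset.mul_sum]
        _ ≤ _ := by gcongr; exact sum_shift hs ht
    have h2 : 1 ≤ t / (1 + s) := by rw [le_div_iff₀ (by positivity)]; linarith
    have h3 : Real.log ((t + s) / (1 + s)) ≤ Real.log (t / (1 + s)) + 1 := by
      have e : Real.log ((t + s) / (1 + s)) ≤ Real.log (2 * (t / (1 + s))) := by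
        apply Real.log_le_log (by positivity)
        rw [← mul_div_assoc]
        gcongr
        linarith
      rw [Real.log_mul (by norm_num) (by positivity)] at e
      have := Real.log_two_lt_d9
      linarith
    rw [min_eq_left h2, max_eq_right (Real.log_nonneg h2)]
    have h4 := Real.log_nonneg h2
    linarith

/-- `R` is nondecreasing -/
theorem R_mono {m n : ℕ} (h : m ≤ n) : R m ≤ R n := by
  unfold R Qs
  exact Finset.sum_le_sum_of_subset_of_nonneg (Finset.Icc_subset_Icc_right h)
    fun n _ _ => q_nonneg n 0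

/-- upper bound of the increments of `R` -/
theorem R_diff {m n : ℕ} (hm : 1 ≤ m) (h : m ≤ n) : R n - R m ≤ Real.log (n / m) := by
  induction n, h using Nat.le_induction with
  | base =>
    rw [div_self (by positivity), Real.log_one]; simp
  | succ k hk ih =>
    have hk1 : 1 ≤ k := hm.trans hk
    have hk' : (1 : ℝ) ≤ k := by exact_mod_cast hk1
    have hm' : (1 : ℝ) ≤ m := by exact_mod_cast hm
    have e : R (k + 1) = R k + q (k + 1) 0 := by
      unfold R Qs
      rw [Finset.sum_Icc_succ_top (by omega)]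
    have h1 := (q_zero_bounds (n := k + 1) (by omega)).2
    have h2 := inv_le_log (show 0 < (k : ℝ) by positivity)
    have h3 : 1 / (2 * ((k + 1 : ℕ) : ℝ) + 1) ≤ 1 / ((k : ℝ) + 1) := by
      apply one_div_le_one_div_of_le (by positivity)
      push_cast; linarith
    have h4 : Real.log (((k + 1 : ℕ) : ℝ) / m) = Real.log (k / m) + Real.log ((k + 1) / k) := by
      rw [← Real.log_mul (by positivity) (by positivity)]
      congr 1
      push_cast
      field_simp
    rw [e, h4]
    linarith

theorem R_le {n : ℕ} (hn : 1 ≤ n) : R n ≤ 1 + Real.log n := by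
  have h := R_diff le_rfl hn
  have h1 := (q_zero_bounds (n := 1) le_rfl).2
  have e : R 1 = q 1 0 := by unfold R Qs; simp
  rw [Nat.cast_one, div_one] at h
  norm_num at h1
  linarith

theorem sum_inv_sq {m T : ℕ} (h : m ≤ T) :
    ∑ n ∈ Ioc m T, 1 / ((n : ℝ)) ^ 2 ≤ 1 / ((m : ℝ) + 1 / 2) - 1 / ((T : ℝ) + 1 / 2) := by
  induction T, h using Nat.le_induction with
  | base => simp
  | succ k hk ih =>
    rw [← Finset.insert_Ioc_right_eq_Ioc_add_one hk, Finset.sum_insert (by simp)]
    have hk' : (0 : ℝ) ≤ k := Nat.cast_nonneg k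
    push_cast
    have h1 : 1 / ((k : ℝ) + 1) ^ 2 ≤ 1 / ((k : ℝ) + 1 / 2) - 1 / ((k : ℝ) + 1 + 1 / 2) := by
      rw [div_sub_div _ _ (by positivity) (by positivity),
        div_le_div_iff₀ (by positivity) (by positivity)]
      nlinarith
    linarith

theorem q_diff_le {n : ℕ} (hn : 1 ≤ n) {z : Z2} (hz : Even (z 0 + z 1)) :
    q n 0 - q n z ≤ nsq z / 4 * (1 / (n : ℝ) ^ 2) := by
  have hn' : (1 : ℝ) ≤ n := by exact_mod_cast hn
  have hs := nsq_nonneg z
  have h1 := q_zero_sub_le hn hz
  have h2 := (q_zero_bounds hn).2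
  calc q n 0 - q n z ≤ nsq z / (2 * n) * q n 0 := h1
    _ ≤ nsq z / (2 * n) * (1 / (2 * n)) := by
        gcongr
        refine h2.trans ?_
        apply one_div_le_one_div_of_le (by positivity)
        linarith
    _ = _ := by field_simp; norm_num

theorem Qs_approx : ∃ C : ℝ, 0 < C ∧ ∀ (M L : ℕ) (z : Z2), 1 ≤ M → 2 * M ≤ L → Even (z 0 + z 1) →
    |Qs (L - M) z - (R L - R M)| ≤ C * (1 + |Real.log ((1 + nsq z) / M)|) := by
  refine ⟨20, by norm_num, fun M L z hM hL hz => ?_⟩
  have hs := nsq_nonneg z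
  set s := nsq z with hsdef
  have hM' : (1 : ℝ) ≤ M := by exact_mod_cast hM
  set T := L - M with hT
  have hMT : M ≤ T := by omega
  set m : ℕ := min ⌊s⌋₊ T with hm
  have hmT : m ≤ T := min_le_right _ _
  have hms : (m : ℝ) ≤ s := by
    have h1 : m ≤ ⌊s⌋₊ := min_le_left _ _
    have h2 : (⌊s⌋₊ : ℝ) ≤ s := Nat.floor_le hs
    have h3 : (m : ℝ) ≤ (⌊s⌋₊ : ℝ) := by exact_mod_cast h1
    linarith
  have hsplit : ∀ f : ℕ → ℝ, ∑ n ∈ Icc 1 T, f n = ∑ n ∈ Icc 1 m, f n + ∑ n ∈ Ioc m T, f n := by
    intro f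
    have h1 : Icc 1 T = Ioc 0 T := by ext a; simp [Finset.mem_Icc, Finset.mem_Ioc]; omega
    have h2 : Icc 1 m = Ioc 0 m := by ext a; simp [Finset.mem_Icc, Finset.mem_Ioc]; omega
    rw [h1, h2]
    exact (Finset.sum_Ioc_consecutive f (Nat.zero_le m) hmT).symm
  have e : Qs T z - (R L - R M) = ∑ n ∈ Icc 1 m, q n z - ∑ n ∈ Ioc m T, (q n 0 - q n z) -
      (R L - R T) + (R M - R m) := by
    have h1 : Qs T z = ∑ n ∈ Icc 1 m, q n z + ∑ n ∈ Ioc m T, q n z := hsplit _
    have h2 : R T = R m + ∑ n ∈ Ioc m T, q n 0 := hsplit _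
    rw [Finset.sum_sub_distrib, h1, h2]
    ring
  have a1 : 0 ≤ ∑ n ∈ Icc 1 m, q n z ∧ ∑ n ∈ Icc 1 m, q n z ≤ 16 := by
    refine ⟨Finset.sum_nonneg fun n _ => q_nonneg n z, ?_⟩
    rcases Nat.eq_zero_or_pos m with h0 | h0
    · rw [h0]; simp
    · have hm1 : (1 : ℝ) ≤ m := by exact_mod_cast h0
      calc ∑ n ∈ Icc 1 m, q n z ≤ ∑ n ∈ Icc 1 m, 16 / (m : ℝ) := by
            refine Finset.sum_le_sum fun n hn => ?_
            rw [Finset.mem_Icc] at hn
            have hn' : (1 : ℝ) ≤ n := by exact_mod_cast hn.1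
            refine (q_le hn.1 z).trans ?_
            gcongr
            linarith
        _ = 16 := by
            rw [Finset.sum_const, Nat.card_Icc, nsmul_eq_mul, Nat.add_sub_cancel]
            field_simp
  have a2 : 0 ≤ ∑ n ∈ Ioc m T, (q n 0 - q n z) ∧ ∑ n ∈ Ioc m T, (q n 0 - q n z) ≤ 1 := by
    refine ⟨Finset.sum_nonneg fun n hn => ?_, ?_⟩
    · rw [Finset.mem_Ioc] at hn
      have := q_le_zero (n := n) (by omega) z
      linarith
    · rcases eq_or_lt_of_le hmT with h0 | h0
      · rw [h0]; simp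
      · have hfl : m = ⌊s⌋₊ := by
          rw [hm]; exact min_eq_left (by omega)
        have hs1 : s < (m : ℝ) + 1 := by rw [hfl]; exact Nat.lt_floor_add_one s
        calc ∑ n ∈ Ioc m T, (q n 0 - q n z) ≤ ∑ n ∈ Ioc m T, s / 4 * (1 / (n : ℝ) ^ 2) := by
              refine Finset.sum_le_sum fun n hn => ?_
              rw [Finset.mem_Ioc] at hn
              exact q_diff_le (by omega) hz
          _ = s / 4 * ∑ n ∈ Ioc m T, 1 / (n : ℝ) ^ 2 := by rw [Finset.mul_sum]
          _ ≤ s / 4 * (1 / ((m : ℝ) + 1 / 2)) := by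
              gcongr
              have h1 := sum_inv_sq hmT
              have : 0 ≤ 1 / ((T : ℝ) + 1 / 2) := by positivity
              linarith
          _ ≤ 1 := by
              rw [mul_one_div, div_le_one (by positivity)]
              have : (0 : ℝ) ≤ m := Nat.cast_nonneg m
              linarith
  have a3 : 0 ≤ R L - R T ∧ R L - R T ≤ 1 := by
    refine ⟨by have := R_mono (m := T) (n := L) (by omega); linarith, ?_⟩
    have h1 := R_diff (m := T) (n := L) (by omega) (by omega)
    have h2 : Real.log ((L : ℝ) / T) ≤ Real.log 2 := by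
      have hT1 : (1 : ℝ) ≤ T := by exact_mod_cast (by omega : 1 ≤ T)
      have hL1 : (1 : ℝ) ≤ L := by exact_mod_cast (by omega : 1 ≤ L)
      apply Real.log_le_log (by positivity)
      rw [div_le_iff₀ (by positivity)]
      exact_mod_cast (by omega : L ≤ 2 * T)
    have := Real.log_two_lt_d9
    linarith
  have a4 : |R M - R m| ≤ 2 + |Real.log ((1 + s) / M)| := by
    rcases le_or_gt M m with h | h
    · have h1 := R_mono h
      have h2 := R_diff hM h
      have hm1 : (1 : ℝ) ≤ m := by exact_mod_cast (by omega : 1 ≤ m)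
      have h3 : Real.log ((m : ℝ) / M) ≤ Real.log ((1 + s) / M) := by
        apply Real.log_le_log (by positivity)
        gcongr
        linarith
      have h4 := le_abs_self (Real.log ((1 + s) / M))
      rw [abs_le]
      constructor <;> linarith
    · have hfl : m = ⌊s⌋₊ := by
        rw [hm]
        rcases le_total ⌊s⌋₊ T with h5 | h5
        · exact min_eq_left h5
        · exfalso
          have : m = T := by rw [hm]; exact min_eq_right h5
          omega
      have hs1 : s < (m : ℝ) + 1 := by rw [hfl]; exact Nat.lt_floor_add_one s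
      have h1 := R_mono h.le
      have h2 : R M ≤ R m + 1 + Real.log ((M : ℝ) / (m + 1)) := by
        have h3 := R_diff (m := m + 1) (n := M) (by omega) (by omega)
        have h4 : R (m + 1) = R m + q (m + 1) 0 := by
          unfold R Qs
          rw [Finset.sum_Icc_succ_top (by omega)]
        have h5 := (q_zero_bounds (n := m + 1) (by omega)).2
        have h6 : 1 / (2 * ((m + 1 : ℕ) : ℝ) + 1) ≤ 1 := by
          rw [div_le_one (by positivity)]
          have : (0 : ℝ) ≤ ((m + 1 : ℕ) : ℝ) := Nat.cast_nonneg _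
          linarith
        push_cast at h3
        linarith
      have hm0 : (0 : ℝ) ≤ m := Nat.cast_nonneg m
      have h3 : Real.log ((M : ℝ) / (m + 1)) ≤ Real.log (2 * (M / (1 + s))) := by
        apply Real.log_le_log (by positivity)
        rw [← mul_div_assoc, div_le_div_iff₀ (by positivity) (by positivity)]
        nlinarith
      rw [Real.log_mul (by norm_num) (by positivity)] at h3
      have h4 : Real.log ((M : ℝ) / (1 + s)) = -Real.log ((1 + s) / M) := by
        rw [← Real.log_inv, inv_div]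
      have h5 := neg_le_abs (Real.log ((1 + s) / M))
      have h6 := Real.log_two_lt_d9
      rw [abs_le]
      constructor <;> linarith
  have hl := abs_nonneg (Real.log ((1 + s) / M))
  rw [e, abs_le]
  rw [abs_le] at a4
  constructor <;> linarith [a1.1, a1.2, a2.1, a2.2, a3.1, a3.2, a4.1, a4.2]

end Pool.Agent.Helper17.QC
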