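import Pool.Agent.Helper97.QC.PDef

/-! Quasi-critical two-dimensional directed polymers (MP_f3a553_pr): part P1, quenched algebra. -/

set_option autoImplicit false

open MeasureTheory ProbabilityTheory Filter Finset Topology

namespace Pool.Agent.Helper17.QC

open Pool.Agent.Helper97.CP Pool.Agent.Helper97.QC

/-! ### linearity and support of `Lw` -/

theorem Lw_succ (v : ℕ → Z2 → ℝ) (n t : ℕ) (φ : Z2 → ℝ) (x : Z2) :
    Lw v n (t + 1) φ x = (1 / 4) * ∑ e : E4, v (n + 1) (x + stp e) * Lw v (n + 1) t φ (x + stp e) := rfl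

theorem Lw_add (v : ℕ → Z2 → ℝ) (n a b : ℕ) (φ : Z2 → ℝ) (x : Z2) :
    Lw v n (a + b) φ x = Lw v n a (Lw v (n + a) b φ) x := by
  induction a generalizing n x with
  | zero => simp [Lw]
  | succ a ih =>
    rw [show a + 1 + b = (a + b) + 1 by ring, Lw_succ, Lw_succ]
    congr 1
    apply Finset.sum_congr rfl
    intro e _
    rw [ih, show n + 1 + a = n + (a + 1) by ring]

theorem Lw_sum {ι : Type*} (v : ℕ → Z2 → ℝ) (n t : ℕ) (s : Finset ι) (c : ι → ℝ) (f : ι → Z2 → ℝ) (x : Z2) :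
    Lw v n t (fun y => ∑ i ∈ s, c i * f i y) x = ∑ i ∈ s, c i * Lw v n t (f i) x := by
  induction t generalizing n x with
  | zero => rfl
  | succ t ih =>
    rw [Lw_succ]
    simp only [ih, Lw_succ, Finset.mul_sum]
    rw [Finset.sum_comm]
    apply Finset.sum_congr rfl
    intro i _
    apply Finset.sum_congr rfl
    intro e _
    ring

theorem Lw_mul_left (v : ℕ → Z2 → ℝ) (n t : ℕ) (c : ℝ) (f : Z2 → ℝ) (x : Z2) :
    Lw v n t (fun y => c * f y) x = c * Lw v n t f x := by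
  have := Lw_sum v n t (Finset.univ : Finset Unit) (fun _ => c) (fun _ => f) x
  simpa using this

theorem Lw_congr (v : ℕ → Z2 → ℝ) (n t : ℕ) (f g : Z2 → ℝ) (x : Z2)
    (h : ∀ y : Z2, |y 0 - x 0| ≤ t → |y 1 - x 1| ≤ t → Even (y 0 + y 1 - (x 0 + x 1) - t) → f y = g y) :
    Lw v n t f x = Lw v n t g x := by
  induction t generalizing n x with
  | zero =>
    show f x = g x
    apply h
    · simp
    · simp
    · simp
  | succ t ih =>
    rw [Lw_succ, Lw_succ]
    congr 1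
    apply Finset.sum_congr rfl
    intro e _
    congr 1
    apply ih
    intro y h0 h1 h2
    have hs0 : |(stp e) 0| + |(stp e) 1| = 1 ∧ Even ((stp e) 0 + (stp e) 1 - 1) := by
      rcases e with ⟨i, b⟩
      fin_cases i <;> cases b <;> simp [stp]
    obtain ⟨ha, hb⟩ := hs0
    have e0 : (x + stp e) 0 = x 0 + stp e 0 := rfl
    have e1 : (x + stp e) 1 = x 1 + stp e 1 := rfl
    rw [e0] at h0
    rw [e1] at h1
    rw [e0, e1] at h2
    have hn0 := abs_nonneg (stp e 0)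
    have hn1 := abs_nonneg (stp e 1)
    apply h
    · have : |y 0 - x 0| ≤ |y 0 - (x 0 + stp e 0)| + |stp e 0| := by
        have := abs_add_le (y 0 - (x 0 + stp e 0)) (stp e 0)
        rwa [show y 0 - (x 0 + stp e 0) + stp e 0 = y 0 - x 0 by ring] at this
      push_cast
      linarith
    · have : |y 1 - x 1| ≤ |y 1 - (x 1 + stp e 1)| + |stp e 1| := by
        have := abs_add_le (y 1 - (x 1 + stp e 1)) (stp e 1)
        rwa [show y 1 - (x 1 + stp e 1) + stp e 1 = y 1 - x 1 by ring] at this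
      push_cast
      linarith
    · have := h2.add hb
      push_cast
      rwa [show y 0 + y 1 - (x 0 + stp e 0 + (x 1 + stp e 1)) - (t : ℤ) + (stp e 0 + stp e 1 - 1)
        = y 0 + y 1 - (x 0 + x 1) - ((t : ℤ) + 1) by ring] at this

theorem Lw_nonneg {v : ℕ → Z2 → ℝ} (hv : ∀ n x, 0 < v n x) (n t : ℕ) (f : Z2 → ℝ) (hf : ∀ y, 0 ≤ f y) (x : Z2) :
    0 ≤ Lw v n t f x := by
  induction t generalizing n x with
  | zero => exact hf x
  | succ t ih =>
    rw [Lw_succ]
    apply mul_nonneg (by norm_num)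
    exact Finset.sum_nonneg fun e _ => mul_nonneg (hv _ _).le (ih _ _)

theorem i0_zero : i0 0 = 1 := by unfold i0; simp

theorem i0_ne {z : Z2} (h : z ≠ 0) : i0 z = 0 := by unfold i0; rw [if_neg h]

/-- unnormalised kernel -/
noncomputable def Kq (v : ℕ → Z2 → ℝ) (n : ℕ) (x : Z2) : ℝ := Lw v 0 n (fun y => i0 (y - x)) 0

theorem Lw_rep (v : ℕ → Z2 → ℝ) (n : ℕ) (φ : Z2 → ℝ) :
    Lw v 0 n φ 0 = ∑ x ∈ bx n, Kq v n x * φ x := by
  have h1 : Lw v 0 n φ 0 = Lw v 0 n (fun y => ∑ x ∈ bx n, φ x * i0 (y - x)) 0 := by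
    apply Lw_congr
    intro y h0 h1 _
    have hy : y ∈ bx n := by
      rw [mem_bx]
      have e0 : y 0 - (0 : Z2) 0 = y 0 := sub_zero _
      have e1 : y 1 - (0 : Z2) 1 = y 1 := sub_zero _
      rw [e0] at h0
      rw [e1] at h1
      exact ⟨h0, h1⟩
    rw [Finset.sum_eq_single y]
    · rw [sub_self, i0_zero, mul_one]
    · intro x _ hx
      rw [i0_ne (sub_ne_zero.2 hx.symm), mul_zero]
    · intro h; exact absurd hy h
  rw [h1, Lw_sum]
  apply Finset.sum_congr rfl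
  intro x _
  unfold Kq
  ring

theorem prod_Icc_one (t : ℕ) (g : ℕ → ℝ) : ∏ k ∈ Icc 1 t, g k = ∏ k ∈ range t, g (k + 1) := by
  induction t with
  | zero => simp
  | succ t ih => rw [Finset.prod_Icc_succ_top (by omega), ih, Finset.prod_range_succ]

theorem Lw_eq_ES (v : ℕ → Z2 → ℝ) (n t : ℕ) (φ : Z2 → ℝ) (x : Z2) :
    Lw v n t φ x = ES t (fun s => (∏ k ∈ Icc 1 t, v (n + k) (s k)) * φ (s t)) x := by
  induction t generalizing n x with
  | zero => rw [ES_zero]; simp [Lw]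
  | succ t ih =>
    rw [Lw_succ, ES_succ]
    congr 1
    apply Finset.sum_congr rfl
    intro e _
    rw [ih, ← ES_mul_left]
    apply ES_congr
    intro s hs
    have h1 : ∏ k ∈ Icc 1 (t + 1), v (n + k) (cns x s k) =
        v (n + 1) (x + stp e) * ∏ k ∈ Icc 1 t, v (n + 1 + k) (s k) := by
      rw [prod_Icc_one, prod_Icc_one, Finset.prod_range_succ', mul_comm]
      congr 1
      · show v (n + (0 + 1)) (s 0) = _
        rw [hs, zero_add]
      · apply Finset.prod_congr rfl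
        intro k _
        show v (n + (k + 1 + 1)) (s (k + 1)) = _
        rw [show n + (k + 1 + 1) = n + 1 + (k + 1) by ring]
    show _ = (∏ k ∈ Icc 1 (t + 1), v (n + k) (cns x s k)) * φ (s t)
    rw [h1]
    ring

theorem Wt_eq (v : ℕ → Z2 → ℝ) (N : ℕ) :
    Wt v 0 N 0 = ((4 : ℝ) ^ N)⁻¹ * ∑ σ : Fin N → E4, ∏ n ∈ Icc 1 N, v n (pos σ n) := by
  unfold Wt
  rw [Lw_eq_ES]
  unfold ES
  congr 1
  apply Finset.sum_congr rfl
  intro σ _
  show (∏ k ∈ Icc 1 N, v (0 + k) (path 0 σ k)) * 1 = _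
  rw [mul_one]
  apply Finset.prod_congr rfl
  intro k _
  unfold path
  rw [zero_add, zero_add]

theorem Wt_pos {v : ℕ → Z2 → ℝ} (hv : ∀ n x, 0 < v n x) (n t : ℕ) (x : Z2) : 0 < Wt v n t x := by
  unfold Wt
  induction t generalizing n x with
  | zero => show (0 : ℝ) < 1; norm_num
  | succ t ih =>
    rw [Lw_succ]
    apply mul_pos (by norm_num)
    exact Finset.sum_pos (fun e _ => mul_pos (hv _ _) (ih _ _)) Finset.univ_nonempty

theorem pq_eq (v : ℕ → Z2 → ℝ) (n : ℕ) (x : Z2) : pq v n x = Kq v n x / Wt v 0 n 0 := rfl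

theorem pq_nonneg {v : ℕ → Z2 → ℝ} (hv : ∀ n x, 0 < v n x) (n : ℕ) (x : Z2) : 0 ≤ pq v n x := by
  rw [pq_eq]
  apply div_nonneg _ (Wt_pos hv _ _ _).le
  exact Lw_nonneg hv _ _ _ (fun y => i0_nonneg _) _

theorem av1_eq (v : ℕ → Z2 → ℝ) (n : ℕ) (φ : Z2 → ℝ) : av1 v n φ = Lw v 0 n φ 0 / Wt v 0 n 0 := by
  unfold av1
  rw [Lw_rep, Finset.sum_div]
  apply Finset.sum_congr rfl
  intro x _
  rw [pq_eq]
  ring

theorem pq_sum {v : ℕ → Z2 → ℝ} (hv : ∀ n x, 0 < v n x) (n : ℕ) : ∑ x ∈ bx n, pq v n x = 1 := by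
  have h := av1_eq v n (fun _ => 1)
  unfold av1 at h
  simp only [mul_one] at h
  rw [h]
  exact div_self (Wt_pos hv _ _ _).ne'

theorem pq_parity (v : ℕ → Z2 → ℝ) (n : ℕ) (x : Z2) (h : pq v n x ≠ 0) : Even (x 0 + x 1 - n) := by
  by_contra hc
  apply h
  rw [pq_eq]
  have : Kq v n x = 0 := by
    unfold Kq
    rw [Lw_congr v 0 n (fun y => i0 (y - x)) (fun y => 0 * i0 (y - x)) 0, Lw_mul_left, zero_mul]
    intro y _ _ h2
    rw [zero_mul]
    apply i0_ne
    intro h3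
    have h4 : y = x := sub_eq_zero.1 h3
    subst h4
    apply hc
    simpa using h2
  rw [this, zero_div]

theorem Wt_ratio {v : ℕ → Z2 → ℝ} (hv : ∀ n x, 0 < v n x) (n t : ℕ) :
    Wt v 0 (n + t) 0 / Wt v 0 n 0 = av1 v n (Wt v n t) := by
  rw [av1_eq]
  congr 1
  unfold Wt
  rw [Lw_add, zero_add]

theorem av_one {v : ℕ → Z2 → ℝ} (hv : ∀ n x, 0 < v n x) (n : ℕ) (φ : Z2 → ℝ) :
    av1 v n φ - 1 = av1 v n (fun x => φ x - 1) := by
  unfold av1
  simp only [mul_sub, mul_one, Finset.sum_sub_distrib]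
  rw [pq_sum hv]

theorem av_sq {v : ℕ → Z2 → ℝ} (hv : ∀ n x, 0 < v n x) (n : ℕ) (φ : Z2 → ℝ) :
    (av1 v n φ - 1) ^ 2 = av2 v n (fun x y => (φ x - 1) * (φ y - 1)) := by
  rw [av_one hv, sq]
  unfold av1 av2
  rw [Finset.sum_mul_sum]
  apply Finset.sum_congr rfl
  intro x _
  apply Finset.sum_congr rfl
  intro y _
  ring

theorem av_four {v : ℕ → Z2 → ℝ} (hv : ∀ n x, 0 < v n x) (n : ℕ) (φ : Z2 → ℝ) :
    (av1 v n φ - 1) ^ 4 = av4 v n (fun x => ∏ a, (φ (x a) - 1)) := by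
  rw [av_one hv]
  unfold av1 av4
  have h := Finset.prod_univ_sum (fun _ : Fin 4 => bx n) (fun _ x => pq v n x * (φ x - 1))
  rw [Finset.prod_const, Finset.card_univ, Fintype.card_fin] at h
  rw [h]
  apply Finset.sum_congr rfl
  intro x _
  rw [Finset.prod_mul_distrib]

/-- comparison on the support: the difference of the two endpoints has even parity -/
theorem av2_mono {v : ℕ → Z2 → ℝ} (hv : ∀ n x, 0 < v n x) (n : ℕ) {Φ Φ' : Z2 → Z2 → ℝ}
    (h : ∀ x y : Z2, Even ((x - y) 0 + (x - y) 1) → Φ x y ≤ Φ' x y) : av2 v n Φ ≤ av2 v n Φ' := by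
  unfold av2
  apply Finset.sum_le_sum
  intro x _
  apply Finset.sum_le_sum
  intro y _
  by_cases hx : pq v n x = 0
  · rw [hx]; simp
  by_cases hy : pq v n y = 0
  · rw [hy]; simp
  apply mul_le_mul_of_nonneg_left _ (mul_nonneg (pq_nonneg hv _ _) (pq_nonneg hv _ _))
  apply h
  have h1 := (pq_parity v n x hx).sub (pq_parity v n y hy)
  have e : (x - y) 0 + (x - y) 1 = x 0 + x 1 - n - (y 0 + y 1 - n) := by
    simp only [Pi.sub_apply]; ring
  rwa [e]

theorem av2_const {v : ℕ → Z2 → ℝ} (hv : ∀ n x, 0 < v n x) (n : ℕ) (c : ℝ) :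
    av2 v n (fun _ _ => c) = c := by
  unfold av2
  have h1 : ∀ x ∈ bx n, ∑ y ∈ bx n, pq v n x * pq v n y * c = pq v n x * c := by
    intro x _
    have : ∀ y ∈ bx n, pq v n x * pq v n y * c = pq v n x * c * pq v n y := fun y _ => by ring
    rw [Finset.sum_congr rfl this, ← Finset.mul_sum, pq_sum hv, mul_one]
  rw [Finset.sum_congr rfl h1, ← Finset.sum_mul, pq_sum hv, one_mul]

theorem av2_lin (v : ℕ → Z2 → ℝ) (n : ℕ) (c : ℝ) (Φ Φ' : Z2 → Z2 → ℝ) :
    av2 v n (fun x y => c * Φ x y + Φ' x y) = c * av2 v n Φ + av2 v n Φ' := by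
  unfold av2
  rw [Finset.mul_sum, ← Finset.sum_add_distrib]
  apply Finset.sum_congr rfl
  intro x _
  rw [Finset.mul_sum, ← Finset.sum_add_distrib]
  apply Finset.sum_congr rfl
  intro y _
  ring

theorem av4_mono {v : ℕ → Z2 → ℝ} (hv : ∀ n x, 0 < v n x) (n : ℕ) {Ψ Ψ' : X4 → ℝ}
    (h : ∀ x, Ψ x ≤ Ψ' x) : av4 v n Ψ ≤ av4 v n Ψ' := by
  unfold av4
  apply Finset.sum_le_sum
  intro x _
  exact mul_le_mul_of_nonneg_left (h x) (Finset.prod_nonneg fun a _ => pq_nonneg hv _ _)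

theorem marg (B : Finset Z2) (p : Z2 → ℝ) (hp : ∑ x ∈ B, p x = 1) {i j : Fin 4} (hij : i ≠ j)
    (F : Z2 → Z2 → ℝ) :
    ∑ x ∈ Fintype.piFinset (fun _ : Fin 4 => B), (∏ a, p (x a)) * F (x i) (x j) =
      ∑ u ∈ B, ∑ w ∈ B, p u * p w * F u w := by
  classical
  have h1 : ∀ x ∈ Fintype.piFinset (fun _ : Fin 4 => B), (∏ a, p (x a)) * F (x i) (x j) =
      ∑ u ∈ B, ∑ w ∈ B, F u w * ∏ a, (p (x a) * (if a = i then (if x a = u then 1 else 0) else
        if a = j then (if x a = w then 1 else 0) else 1)) := by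
    intro x hx
    rw [Fintype.mem_piFinset] at hx
    rw [Finset.sum_eq_single (x i)]
    · rw [Finset.sum_eq_single (x j)]
      · rw [mul_comm]
        congr 1
        apply Finset.prod_congr rfl
        intro a _
        by_cases ha : a = i
        · subst ha; simp
        · by_cases hb : a = j
          · subst hb; rw [if_neg ha, if_pos rfl, if_pos rfl, mul_one]
          · simp [ha, hb]
      · intro w _ hw
        have : ∏ a, (p (x a) * (if a = i then (if x a = x i then 1 else 0) else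
            if a = j then (if x a = w then 1 else 0) else 1)) = (0 : ℝ) := by
          apply Finset.prod_eq_zero (Finset.mem_univ j)
          rw [if_neg hij.symm, if_pos rfl, if_neg (Ne.symm hw), mul_zero]
        rw [this, mul_zero]
      · intro h; exact absurd (hx j) h
    · intro u _ hu
      apply Finset.sum_eq_zero
      intro w _
      have : ∏ a, (p (x a) * (if a = i then (if x a = u then 1 else 0) else
          if a = j then (if x a = w then 1 else 0) else 1)) = (0 : ℝ) := by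
        apply Finset.prod_eq_zero (Finset.mem_univ i)
        rw [if_pos rfl, if_neg (Ne.symm hu), mul_zero]
      rw [this, mul_zero]
    · intro h; exact absurd (hx i) h
  rw [Finset.sum_congr rfl h1, Finset.sum_comm]
  apply Finset.sum_congr rfl
  intro u hu
  rw [Finset.sum_comm]
  apply Finset.sum_congr rfl
  intro w hw
  rw [← Finset.mul_sum]
  have h2 := Finset.prod_univ_sum (fun _ : Fin 4 => B) (fun a z => p z * (if a = i then (if z = u then (1 : ℝ) else 0) else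
        if a = j then (if z = w then 1 else 0) else 1))
  rw [← h2]
  have h3 : ∀ a : Fin 4, ∑ z ∈ B, p z * (if a = i then (if z = u then (1 : ℝ) else 0) else
        if a = j then (if z = w then 1 else 0) else 1) = (if a = i then p u else if a = j then p w else 1) := by
    intro a
    by_cases ha : a = i
    · simp [ha, hu]
    · by_cases hb : a = j
      · simp [hb, hij.symm, hw]
      · simp [ha, hb, hp]
  simp only [h3]
  have h4 : ∏ a : Fin 4, (if a = i then p u else if a = j then p w else 1) = p u * p w := by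
    rw [← Finset.mul_prod_erase _ _ (Finset.mem_univ i), if_pos rfl]
    congr 1
    rw [← Finset.mul_prod_erase _ _ (Finset.mem_erase.2 ⟨hij.symm, Finset.mem_univ j⟩), if_neg hij.symm,
      if_pos rfl]
    rw [Finset.prod_eq_one, mul_one]
    intro a ha
    rw [Finset.mem_erase, Finset.mem_erase] at ha
    rw [if_neg ha.2.1, if_neg ha.1]
  rw [h4]
  ring

theorem av4_pairs {v : ℕ → Z2 → ℝ} (hv : ∀ n x, 0 < v n x) (n : ℕ) (c : ℝ) (ρ : Z2 → ℝ) :
    av4 v n (fun x => c * ∑ J ∈ prs, ρ (x J.1 - x J.2)) = 6 * c * av2 v n (fun x y => ρ (x - y)) := by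
  have h1 : av4 v n (fun x => c * ∑ J ∈ prs, ρ (x J.1 - x J.2)) =
      ∑ J ∈ prs, c * ∑ x ∈ Fintype.piFinset (fun _ : Fin 4 => bx n),
        (∏ a, pq v n (x a)) * ρ (x J.1 - x J.2) := by
    unfold av4
    simp only [Finset.mul_sum]
    rw [Finset.sum_comm]
    apply Finset.sum_congr rfl
    intro J _
    apply Finset.sum_congr rfl
    intro x _
    ring
  have h2 : ∀ J ∈ prs, c * ∑ x ∈ Fintype.piFinset (fun _ : Fin 4 => bx n),
        (∏ a, pq v n (x a)) * ρ (x J.1 - x J.2) = c * av2 v n (fun x y => ρ (x - y)) := by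
    intro J hJ
    rw [marg (bx n) (pq v n) (pq_sum hv n) (prs_ne hJ) (fun x y => ρ (x - y))]
    rfl
  rw [h1, Finset.sum_congr rfl h2, Finset.sum_const, prs_card]
  simp only [nsmul_eq_mul]
  push_cast
  ring

theorem L2_nonneg {v : ℕ → Z2 → ℝ} (hv : ∀ n x, 0 < v n x) {ψ : Z2 → ℝ} (hψ : ∀ z, 0 ≤ ψ z)
    (n t : ℕ) (x y : Z2) : 0 ≤ L2 v n t ψ x y := by
  induction t generalizing n x y with
  | zero => exact hψ _
  | succ t ih =>
    show 0 ≤ (1 / 16) * ∑ e : E4, ∑ e' : E4,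
      v (n + 1) (x + stp e) * v (n + 1) (y + stp e') * L2 v (n + 1) t ψ (x + stp e) (y + stp e')
    apply mul_nonneg (by norm_num)
    exact Finset.sum_nonneg fun e _ => Finset.sum_nonneg fun e' _ =>
      mul_nonneg (mul_nonneg (hv _ _).le (hv _ _).le) (ih _ _ _)

theorem L2_eq (v : ℕ → Z2 → ℝ) (n t : ℕ) (ψ : Z2 → ℝ) (x y : Z2) :
    L2 v n t ψ x y = Lw v n t (fun x' => Lw v n t (fun y' => ψ (x' - y')) y) x := by
  induction t generalizing n x y with
  | zero => rfl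
  | succ t ih =>
    show (1 / 16) * ∑ e : E4, ∑ e' : E4,
      v (n + 1) (x + stp e) * v (n + 1) (y + stp e') * L2 v (n + 1) t ψ (x + stp e) (y + stp e') = _
    rw [Lw_succ]
    have h1 : (fun x' => Lw v n (t + 1) (fun y' => ψ (x' - y')) y) =
        fun x' => ∑ e' : E4, (1 / 4 * v (n + 1) (y + stp e')) *
          Lw v (n + 1) t (fun y' => ψ (x' - y')) (y + stp e') := by
      funext x'
      rw [Lw_succ, Finset.mul_sum]
      apply Finset.sum_congr rfl
      intro e' _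
      ring
    rw [h1]
    simp only [Lw_sum v (n + 1) t _ (fun e' => 1 / 4 * v (n + 1) (y + stp e'))
      (fun e' x' => Lw v (n + 1) t (fun y' => ψ (x' - y')) (y + stp e'))]
    simp only [Finset.mul_sum]
    apply Finset.sum_congr rfl
    intro e _
    apply Finset.sum_congr rfl
    intro e' _
    rw [ih]
    ring

theorem av2_eq (v : ℕ → Z2 → ℝ) (n : ℕ) (Φ : Z2 → Z2 → ℝ) :
    av2 v n Φ = Lw v 0 n (fun x => Lw v 0 n (fun y => Φ x y) 0) 0 / (Wt v 0 n 0) ^ 2 := by
  unfold av2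
  rw [Lw_rep, Finset.sum_div]
  apply Finset.sum_congr rfl
  intro x _
  rw [Lw_rep, Finset.mul_sum, Finset.sum_div]
  apply Finset.sum_congr rfl
  intro y _
  rw [pq_eq, pq_eq]
  rw [div_mul_div_comm, ← sq]
  ring

theorem Lw_exch (v : ℕ → Z2 → ℝ) (n m t : ℕ) (g : Z2 → Z2 → ℝ) (x' : Z2) :
    Lw v m t (fun x => Lw v 0 n (g x) 0) x' = Lw v 0 n (fun y' => Lw v m t (fun x => g x y') x') 0 := by
  simp only [Lw_rep]
  rw [Lw_sum v m t (bx n) (fun y => Kq v n y) (fun y x => g x y)]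

theorem av2_step {v : ℕ → Z2 → ℝ} (hv : ∀ n x, 0 < v n x) (n t : ℕ) (ψ : Z2 → ℝ) :
    av2 v (n + t) (fun x y => ψ (x - y)) =
      (Wt v 0 n 0 / Wt v 0 (n + t) 0) ^ 2 * av2 v n (L2 v n t ψ) := by
  have hn := (Wt_pos hv 0 n 0).ne'
  have hnt := (Wt_pos hv 0 (n + t) 0).ne'
  rw [av2_eq, av2_eq, div_pow]
  have key : Lw v 0 (n + t) (fun x => Lw v 0 (n + t) (fun y => ψ (x - y)) 0) 0 =
      Lw v 0 n (fun x => Lw v 0 n (fun y => L2 v n t ψ x y) 0) 0 := by
    rw [Lw_add]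
    congr 1
    funext x'
    rw [zero_add]
    have h1 : (fun x => Lw v 0 (n + t) (fun y => ψ (x - y)) 0) =
        fun x => Lw v 0 n (Lw v n t (fun y => ψ (x - y))) 0 := by
      funext x
      rw [Lw_add, zero_add]
    rw [h1, Lw_exch v n n t (fun x => Lw v n t (fun y => ψ (x - y))) x']
    congr 1
    funext y'
    rw [L2_eq]
  rw [key]
  field_simp

end Pool.Agent.Helper17.QC
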